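import Mathlib

set_option autoImplicit false

/-!
# Stabilizer functions on vector spaces over `ZMod 2`

A function `f : E → ℂ` on a finite `ZMod 2`-space is a stabilizer function if it is an eigenfunction
(up to scalars) of at least `|E|` of the operators `f ↦ chi (φ x) f (x + a)`.
-/

open Module

namespace Pool.Agent.U8.Stab

/-- the nontrivial additive character of `ZMod 2` -/
noncomputable def chi (t : ZMod 2) : ℂ := if t = 0 then 1 else -1

@[simp] lemma chi_zero : chi 0 = 1 := by simp [chi]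

@[simp] lemma chi_one : chi 1 = -1 := by simp [chi]

lemma zmod2_cases (t : ZMod 2) : t = 0 ∨ t = 1 := by
  revert t
  decide

lemma chi_add (s t : ZMod 2) : chi (s + t) = chi s * chi t := by
  rcases zmod2_cases s with rfl | rfl <;> rcases zmod2_cases t with rfl | rfl
  · simp
  · simp
  · simp
  · have : (1 : ZMod 2) + 1 = 0 := by decide
    simp [this]

lemma chi_ne_zero (t : ZMod 2) : chi t ≠ 0 := by
  rcases zmod2_cases t with rfl | rfl <;> simp

lemma chi_mul_self (t : ZMod 2) : chi t * chi t = 1 := by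
  rcases zmod2_cases t with rfl | rfl <;> simp

lemma chi_inj {s t : ZMod 2} (h : chi s = chi t) : s = t := by
  rcases zmod2_cases s with rfl | rfl <;> rcases zmod2_cases t with rfl | rfl
  · rfl
  · exfalso; norm_num at h
  · exfalso; norm_num at h
  · rfl

lemma add_self_F (t : ZMod 2) : t + t = 0 := by
  rcases zmod2_cases t with rfl | rfl <;> decide

section

variable {E : Type} [AddCommGroup E] [Module (ZMod 2) E]

lemma add_self_E (a : E) : a + a = 0 := by
  have h : (1 : ZMod 2) + 1 = 0 := by decide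
  calc a + a = ((1 : ZMod 2) + 1) • a := by rw [add_smul, one_smul]
    _ = 0 := by rw [h, zero_smul]

/-- the space of all `(a, φ)` such that `f` is an eigenfunction of the corresponding operator -/
def W (f : E → ℂ) : Submodule (ZMod 2) (E × Dual (ZMod 2) E) where
  carrier := {p | ∃ c : ℂ, c ≠ 0 ∧ ∀ x, f (x + p.1) = c * chi (p.2 x) * f x}
  zero_mem' := ⟨1, one_ne_zero, fun x => by simp⟩
  add_mem' := by
    rintro p q ⟨c, hc, hp⟩ ⟨c', hc', hq⟩
    refine ⟨c * c' * chi (q.2 p.1), mul_ne_zero (mul_ne_zero hc hc') (chi_ne_zero _), fun x => ?_⟩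
    have h1 : x + (p + q).1 = x + p.1 + q.1 := by simp [add_assoc]
    rw [h1, hq, hp]
    have h2 : (p + q).2 x = p.2 x + q.2 x := rfl
    rw [h2, map_add, chi_add, chi_add]
    ring
  smul_mem' := by
    rintro t p ⟨c, hc, hp⟩
    rcases zmod2_cases t with rfl | rfl
    · exact ⟨1, one_ne_zero, fun x => by simp⟩
    · rw [one_smul]
      exact ⟨c, hc, hp⟩

lemma mem_W {f : E → ℂ} {a : E} {φ : Dual (ZMod 2) E} :
    (a, φ) ∈ W f ↔ ∃ c : ℂ, c ≠ 0 ∧ ∀ x, f (x + a) = c * chi (φ x) * f x := Iff.rfl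

/-- `f` is a stabilizer function -/
def IsStab (f : E → ℂ) : Prop := Nat.card E ≤ Nat.card (W f)

lemma finite_dual [Finite E] : Finite (Dual (ZMod 2) E) := Module.finite_of_finite (ZMod 2)

attribute [local instance] finite_dual

lemma stab_of_inj [Finite E] {X : Type*} (hX : Nat.card E ≤ Nat.card X) (f : E → ℂ)
    (g : X → E × Dual (ZMod 2) E) (hg : Function.Injective g) (h : ∀ x, g x ∈ W f) : IsStab f := by
  refine le_trans hX ?_
  have : Function.Injective (fun x => (⟨g x, h x⟩ : W f)) := by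
    intro x y hxy
    exact hg (Subtype.ext_iff.1 hxy)
  exact Nat.card_le_card_of_injective _ this

lemma stab_mono [Finite E] {f g : E → ℂ} (hf : IsStab f) (h : W f ≤ W g) : IsStab g :=
  stab_of_inj hf g (fun x : W f => x.1) Subtype.val_injective (fun x => h x.2)

lemma stab_const [Finite E] (c : ℂ) : IsStab (fun _ : E => c) := by
  refine stab_of_inj (X := E) le_rfl _ (fun a => (a, 0)) ?_ ?_
  · intro a b hab
    exact (Prod.ext_iff.1 hab).1
  · intro a
    exact ⟨1, one_ne_zero, fun x => by simp⟩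

lemma stab_smul [Finite E] (c : ℂ) {f : E → ℂ} (hf : IsStab f) : IsStab (fun x => c * f x) := by
  refine stab_mono hf ?_
  rintro ⟨a, φ⟩ ⟨c', hc', h⟩
  exact ⟨c', hc', fun x => by simp only at h ⊢; rw [h]; ring⟩

lemma stab_translate [Finite E] (b : E) {f : E → ℂ} (hf : IsStab f) : IsStab (fun x => f (x + b)) := by
  refine stab_mono hf ?_
  rintro ⟨a, φ⟩ ⟨c', hc', h⟩
  refine ⟨c' * chi (φ b), mul_ne_zero hc' (chi_ne_zero _), fun x => ?_⟩
  have h1 : x + a + b = x + b + a := by abel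
  simp only [h1]
  rw [h, map_add, chi_add]
  ring

/-- quadratic functions -/
def IsQuad (q : E → ZMod 2) : Prop :=
  ∀ a, ∃ φ : Dual (ZMod 2) E, ∃ κ : ZMod 2, ∀ x, q (x + a) = q x + φ x + κ

lemma IsQuad.add {q q' : E → ZMod 2} (h : IsQuad q) (h' : IsQuad q') :
    IsQuad (fun x => q x + q' x) := by
  intro a
  obtain ⟨φ, κ, h1⟩ := h a
  obtain ⟨φ', κ', h2⟩ := h' a
  refine ⟨φ + φ', κ + κ', fun x => ?_⟩
  simp only [h1, h2, LinearMap.add_apply]
  ring

lemma IsQuad.const (c : ZMod 2) : IsQuad (fun _ : E => c) := by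
  intro a
  exact ⟨0, 0, fun x => by simp⟩

lemma IsQuad.smul (c : ZMod 2) {q : E → ZMod 2} (h : IsQuad q) :
    IsQuad (fun x => c * q x) := by
  intro a
  obtain ⟨φ, κ, h1⟩ := h a
  refine ⟨c • φ, c * κ, fun x => ?_⟩
  simp only [h1, LinearMap.smul_apply, smul_eq_mul]
  ring

lemma IsQuad.sum {ι : Type*} (s : Finset ι) (q : ι → E → ZMod 2) (h : ∀ i, IsQuad (q i)) :
    IsQuad (fun x => ∑ i ∈ s, q i x) := by
  classical
  induction s using Finset.induction_on with
  | empty => simpa using IsQuad.const (E := E) 0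
  | insert i s hi ih =>
    simp only [Finset.sum_insert hi]
    exact (h i).add ih

lemma IsQuad.mul (φ ψ : Dual (ZMod 2) E) : IsQuad (fun x => φ x * ψ x) := by
  intro a
  refine ⟨φ a • ψ + ψ a • φ, φ a * ψ a, fun x => ?_⟩
  simp only [map_add, LinearMap.add_apply, LinearMap.smul_apply, smul_eq_mul]
  ring

lemma IsQuad.lin (φ : Dual (ZMod 2) E) : IsQuad (fun x => φ x) := by
  intro a
  exact ⟨0, φ a, fun x => by simp⟩

lemma stab_quad [Finite E] {q : E → ZMod 2} (hq : IsQuad q) {f : E → ℂ} (hf : IsStab f) :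
    IsStab (fun x => chi (q x) * f x) := by
  choose φ κ h using hq
  refine stab_of_inj hf _ (fun p : W f => (p.1.1, p.1.2 + φ p.1.1)) ?_ ?_
  · rintro ⟨⟨a, ψ⟩, h1⟩ ⟨⟨a', ψ'⟩, h2⟩ h3
    simp only [Prod.mk.injEq] at h3
    obtain ⟨rfl, h4⟩ := h3
    have := add_right_cancel h4
    subst this
    rfl
  · rintro ⟨⟨a, ψ⟩, c, hc, h1⟩
    refine ⟨c * chi (κ a), mul_ne_zero hc (chi_ne_zero _), fun x => ?_⟩
    simp only at h1
    simp only [h, h1, chi_add, LinearMap.add_apply]
    ring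

end

section

variable {E E' Z : Type} [AddCommGroup E] [Module (ZMod 2) E] [AddCommGroup E']
  [Module (ZMod 2) E'] [AddCommGroup Z] [Module (ZMod 2) Z]

attribute [local instance] finite_dual

lemma stab_prod [Finite E] [Finite E'] {f : E → ℂ} {g : E' → ℂ} (hf : IsStab f) (hg : IsStab g) :
    IsStab (fun p : E × E' => f p.1 * g p.2) := by
  refine stab_of_inj (X := W f × W g) ?_ _ (fun p => ((p.1.1.1, p.2.1.1),
    p.1.1.2 ∘ₗ LinearMap.fst _ _ _ + p.2.1.2 ∘ₗ LinearMap.snd _ _ _)) ?_ ?_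
  · rw [Nat.card_prod, Nat.card_prod]
    exact Nat.mul_le_mul hf hg
  · rintro ⟨⟨⟨a, φ⟩, h1⟩, ⟨⟨b, ψ⟩, h2⟩⟩ ⟨⟨⟨a', φ'⟩, h1'⟩, ⟨⟨b', ψ'⟩, h2'⟩⟩ h
    simp only [Prod.mk.injEq] at h
    obtain ⟨⟨rfl, rfl⟩, h3⟩ := h
    have e1 : φ = φ' := by
      ext x
      have := LinearMap.congr_fun h3 (x, 0)
      simpa using this
    have e2 : ψ = ψ' := by
      ext x
      have := LinearMap.congr_fun h3 (0, x)
      simpa using this
    subst e1 e2
    rfl
  · rintro ⟨⟨⟨a, φ⟩, c, hc, h1⟩, ⟨⟨b, ψ⟩, c', hc', h2⟩⟩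
    refine ⟨c * c', mul_ne_zero hc hc', fun x => ?_⟩
    simp only at h1 h2
    simp only [Prod.fst_add, Prod.snd_add, h1, h2, LinearMap.add_apply, LinearMap.comp_apply,
      LinearMap.fst_apply, LinearMap.snd_apply, chi_add]
    ring

lemma stab_equiv [Finite E] [Finite E'] (e : E' ≃ₗ[ZMod 2] E) {f : E → ℂ} (hf : IsStab f) :
    IsStab (fun x => f (e x)) := by
  refine stab_of_inj (X := W f) ?_ _ (fun p => (e.symm p.1.1, p.1.2 ∘ₗ e.toLinearMap)) ?_ ?_
  · rw [Nat.card_congr e.toEquiv]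
    exact hf
  · rintro ⟨⟨a, φ⟩, h1⟩ ⟨⟨b, ψ⟩, h2⟩ h
    simp only [Prod.mk.injEq] at h
    have e1 : a = b := e.symm.injective h.1
    have e2 : φ = ψ := by
      ext x
      have := LinearMap.congr_fun h.2 (e.symm x)
      simpa using this
    subst e1 e2
    rfl
  · rintro ⟨⟨a, φ⟩, c, hc, h1⟩
    refine ⟨c, hc, fun x => ?_⟩
    simp only at h1
    simp [h1]

lemma stab_iff [Finite E] (f : E → ℂ) :
    IsStab f ↔ finrank (ZMod 2) E ≤ finrank (ZMod 2) (W f) := by
  unfold IsStab
  rw [Module.natCard_eq_pow_finrank (K := ZMod 2) (V := E),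
    Module.natCard_eq_pow_finrank (K := ZMod 2) (V := W f)]
  have : Nat.card (ZMod 2) = 2 := by simp
  rw [this]
  exact Nat.pow_le_pow_iff_right (by norm_num)

/-- **Partial sums of stabilizer functions are stabilizer functions.** -/
lemma stab_sum [Finite E] [Fintype Z] {f : E × Z → ℂ} (hf : IsStab f) :
    IsStab (fun x => ∑ z, f (x, z)) := by
  classical
  by_cases hz : ∀ x, ∑ z, f (x, z) = 0
  · simp only [hz]
    exact stab_const 0
  push Not at hz
  obtain ⟨x₀, hx₀⟩ := hz
  have hne : ∃ z₀, f (x₀, z₀) ≠ 0 := by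
    by_contra hcon
    push Not at hcon
    exact hx₀ (Finset.sum_eq_zero fun z _ => hcon z)
  obtain ⟨z₀, hz₀⟩ := hne
  -- the translations in the direction of `Z` in `W f`
  let K : Submodule (ZMod 2) Z :=
    { carrier := {n | (((0 : E), n), (0 : Dual (ZMod 2) (E × Z))) ∈ W f}
      zero_mem' := (W f).zero_mem
      add_mem' := by
        intro a b ha hb
        have := (W f).add_mem ha hb
        simpa using this
      smul_mem' := by
        intro t a ha
        have := (W f).smul_mem t ha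
        simpa using this }
  have hK1 : ∀ n ∈ K, ∀ x z, f (x, z + n) = f (x, z) := by
    rintro n ⟨c, hc, h⟩
    have h1 : ∀ x z, f (x, z + n) = c * f (x, z) := by
      intro x z
      have := h (x, z)
      simpa using this
    have h2 : ∑ z, f (x₀, z) = c * ∑ z, f (x₀, z) := by
      rw [Finset.mul_sum]
      simp only [← h1]
      exact (Equiv.sum_comp (Equiv.addRight n) (fun z => f (x₀, z))).symm
    have h3 : c = 1 := by
      have : (1 - c) * ∑ z, f (x₀, z) = 0 := by
        rw [sub_mul, one_mul, ← h2, sub_self]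
      rcases mul_eq_zero.1 this with h4 | h4
      · exact (sub_eq_zero.1 h4).symm
      · exact absurd h4 hx₀
    intro x z
    rw [h1, h3, one_mul]
  -- restriction of functionals to `Z`
  let π : W f →ₗ[ZMod 2] Dual (ZMod 2) Z :=
    (Dual.transpose (R := ZMod 2) (LinearMap.inr (ZMod 2) E Z)) ∘ₗ
      (LinearMap.snd (ZMod 2) (E × Z) (Dual (ZMod 2) (E × Z))) ∘ₗ (W f).subtype
  have hπ : LinearMap.range π ≤ K.dualAnnihilator := by
    rintro _ ⟨⟨⟨⟨a, b⟩, φ⟩, c, hc, h⟩, rfl⟩
    rw [Submodule.mem_dualAnnihilator]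
    intro n hn
    have h1 := hK1 n hn
    have h2 := h (x₀, z₀ + n)
    have h3 := h (x₀, z₀)
    simp only [Prod.mk_add_mk] at h2 h3
    rw [add_right_comm, h1, h1, h3] at h2
    have h4 : φ (x₀, z₀ + n) = φ (x₀, z₀) + φ (0, n) := by
      rw [← map_add]
      simp
    rw [h4, chi_add] at h2
    have h5 : c * chi (φ (x₀, z₀)) * f (x₀, z₀) ≠ 0 :=
      mul_ne_zero (mul_ne_zero hc (chi_ne_zero _)) hz₀
    have h6 : chi (φ (0, n)) = 1 := by
      have : (c * chi (φ (x₀, z₀)) * f (x₀, z₀)) * (chi (φ (0, n)) - 1) = 0 := by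
        linear_combination -h2
      rcases mul_eq_zero.1 this with h7 | h7
      · exact absurd h7 h5
      · exact sub_eq_zero.1 h7
    have h7 : φ (0, n) = 0 := chi_inj (h6.trans chi_zero.symm)
    exact h7
  -- the elements with functional vanishing on `Z` give elements of `W` of the partial sum
  let g : E → ℂ := fun x => ∑ z, f (x, z)
  let ρ : LinearMap.ker π →ₗ[ZMod 2] E × Dual (ZMod 2) E :=
    (LinearMap.prodMap (LinearMap.fst (ZMod 2) E Z)
      (Dual.transpose (R := ZMod 2) (LinearMap.inl (ZMod 2) E Z))) ∘ₗ (W f).subtype ∘ₗ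
        (LinearMap.ker π).subtype
  have hρ : LinearMap.range ρ ≤ W g := by
    rintro _ ⟨⟨⟨⟨⟨a, b⟩, φ⟩, c, hc, h⟩, hk⟩, rfl⟩
    refine ⟨c, hc, fun x => ?_⟩
    have hk' : ∀ z, φ (0, z) = 0 := fun z => LinearMap.congr_fun hk z
    change ∑ z, f (x + a, z) = c * chi (φ (x, 0)) * ∑ z, f (x, z)
    rw [← Equiv.sum_comp (Equiv.addRight b) (fun z => f (x + a, z)), Finset.mul_sum]
    refine Finset.sum_congr rfl fun z _ => ?_
    have h1 := h (x, z)
    simp only [Prod.mk_add_mk] at h1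
    simp only [Equiv.coe_addRight]
    rw [h1]
    have h2 : φ (x, z) = φ (x, 0) + φ (0, z) := by
      rw [← map_add]
      simp
    rw [h2, hk' z, add_zero]
  have hker : finrank (ZMod 2) (LinearMap.ker ρ) ≤ finrank (ZMod 2) K := by
    have hmem : ∀ y : LinearMap.ker ρ, (y.1.1.1.1).2 ∈ K := by
      rintro ⟨⟨⟨⟨⟨a, b⟩, φ⟩, hW⟩, hk⟩, hr⟩
      have hk' : ∀ z, φ (0, z) = 0 := fun z => LinearMap.congr_fun hk z
      have h1 := (Prod.ext_iff.1 hr).1
      have h2 := (Prod.ext_iff.1 hr).2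
      have ha : a = 0 := h1
      have h2' : ∀ x, φ (x, 0) = 0 := fun x => LinearMap.congr_fun h2 x
      have hφ : φ = 0 := by
        ext x
        · simpa using h2' x
        · simpa using hk' x
      subst ha hφ
      exact hW
    let τ : LinearMap.ker ρ →ₗ[ZMod 2] K :=
      LinearMap.codRestrict K ((LinearMap.snd (ZMod 2) E Z) ∘ₗ
        (LinearMap.fst (ZMod 2) (E × Z) (Dual (ZMod 2) (E × Z))) ∘ₗ (W f).subtype ∘ₗ
        (LinearMap.ker π).subtype ∘ₗ (LinearMap.ker ρ).subtype) hmem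
    refine LinearMap.finrank_le_finrank_of_injective (f := τ) ?_
    rw [← LinearMap.ker_eq_bot, LinearMap.ker_eq_bot']
    rintro ⟨⟨⟨⟨⟨a, b⟩, φ⟩, hW⟩, hk⟩, hr⟩ h0
    have hb : b = 0 := by
      have := congrArg Subtype.val h0
      exact this
    have hk' : ∀ z, φ (0, z) = 0 := fun z => LinearMap.congr_fun hk z
    have h1 := (Prod.ext_iff.1 hr).1
    have h2 := (Prod.ext_iff.1 hr).2
    have ha : a = 0 := h1
    have h2' : ∀ x, φ (x, 0) = 0 := fun x => LinearMap.congr_fun h2 x
    have hφ : φ = 0 := by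
      ext x
      · simpa using h2' x
      · simpa using hk' x
    subst ha hφ hb
    rfl
  have e1 := LinearMap.finrank_range_add_finrank_ker π
  have e2 := LinearMap.finrank_range_add_finrank_ker ρ
  have e3 := Subspace.finrank_add_finrank_dualAnnihilator_eq K
  have e4 := Submodule.finrank_mono hπ
  have e5 := Submodule.finrank_mono hρ
  have e6 := (stab_iff f).1 hf
  have e7 : finrank (ZMod 2) (E × Z) = finrank (ZMod 2) E + finrank (ZMod 2) Z :=
    Module.finrank_prod
  rw [stab_iff]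
  change _ ≤ finrank (ZMod 2) (W g)
  omega

end

end Pool.Agent.U8.Stab
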