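import Pool.Agent.U8.Stab.Gates

set_option autoImplicit false

/-!
# All Boolean functions of `2 k` variables from `78 (2 ^ k - 1)` copies of `v`
-/

open Module

namespace Pool.Agent.U8.Stab

attribute [local instance] finite_dual

lemma rep_prod {E ι : Type} [AddCommGroup E] [Module (ZMod 2) E] [Finite E] (s : Finset ι)
    {m : ℕ} (f : ι → E → ℂ) (h : ∀ i, Rep m (f i)) :
    Rep (s.card * m) (fun x => ∏ i ∈ s, f i x) := by
  classical
  induction s using Finset.induction_on with
  | empty => simpa using rep_of_stab (stab_const (E := E) 1)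
  | insert i s hi ih =>
    simp only [Finset.prod_insert hi, Finset.card_insert_of_notMem hi]
    have := rep_mul (h i) ih
    have e : m + s.card * m = (s.card + 1) * m := by ring
    rwa [e] at this

/-- `1` if `u` is the indicator function of `x` -/
noncomputable def hot (k : ℕ) (p : (Fin k → F2) × ((Fin k → F2) → F2)) : ℂ :=
  if p.2 = Pi.single p.1 1 then 1 else 0

lemma hot_succ (k : ℕ) (x : Fin (k + 1) → F2) (u : (Fin (k + 1) → F2) → F2) :
    hot (k + 1) (x, u) =
      hot k (Fin.tail x, fun a => u (Fin.cons 0 a) + u (Fin.cons 1 a)) *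
        ∏ a : Fin k → F2, andT ((u (Fin.cons 1 a), u (Fin.cons 0 a) + u (Fin.cons 1 a)), x 0) := by
  classical
  by_cases h : u = Pi.single x 1
  · -- the indicator function satisfies all conditions
    have hu : ∀ t a, u (Fin.cons t a) = if t = x 0 ∧ a = Fin.tail x then 1 else 0 := by
      intro t a
      rw [h, Pi.single_apply]
      have : (Fin.cons t a : Fin (k + 1) → F2) = x ↔ t = x 0 ∧ a = Fin.tail x := by
        constructor
        · rintro rfl
          simp
        · rintro ⟨rfl, rfl⟩
          exact Fin.cons_self_tail x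
      simp only [this]
    have h1 : (fun a => u (Fin.cons 0 a) + u (Fin.cons 1 a)) =
        (Pi.single (Fin.tail x) 1 : (Fin k → F2) → F2) := by
      funext a
      rw [hu, hu, Pi.single_apply]
      rcases zmod2_cases (x 0) with h0 | h0 <;> by_cases ha : a = Fin.tail x <;> simp [h0, ha]
    have h2 : ∀ a : Fin k → F2,
        andT ((u (Fin.cons 1 a), u (Fin.cons 0 a) + u (Fin.cons 1 a)), x 0) = 1 := by
      intro a
      unfold andT
      rw [if_pos]
      simp only [hu]
      rcases zmod2_cases (x 0) with h0 | h0 <;> by_cases ha : a = Fin.tail x <;> simp [h0, ha]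
    unfold hot
    simp only [h2, Finset.prod_const_one, mul_one, h1, if_true]
    rw [if_pos h]
  · -- otherwise one of the factors vanishes
    have h0 : hot (k + 1) (x, u) = 0 := by
      unfold hot
      rw [if_neg h]
    rw [h0]
    symm
    by_contra hcon
    obtain ⟨h1, h2⟩ := mul_ne_zero_iff.1 hcon
    have h3 : (fun a => u (Fin.cons 0 a) + u (Fin.cons 1 a)) =
        (Pi.single (Fin.tail x) 1 : (Fin k → F2) → F2) := by
      by_contra h4
      apply h1
      unfold hot
      rw [if_neg h4]
    have h4 : ∀ a : Fin k → F2, u (Fin.cons 1 a) = (u (Fin.cons 0 a) + u (Fin.cons 1 a)) * x 0 := by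
      intro a
      have := Finset.prod_ne_zero_iff.1 h2 a (Finset.mem_univ a)
      by_contra h5
      apply this
      unfold andT
      rw [if_neg h5]
    apply h
    funext y
    have hy : y = Fin.cons (y 0) (Fin.tail y) := (Fin.cons_self_tail y).symm
    generalize y 0 = t at hy
    generalize Fin.tail y = a at hy
    subst hy
    have h5 := h4 a
    have h6 : u (Fin.cons 0 a) + u (Fin.cons 1 a) = if a = Fin.tail x then 1 else 0 := by
      have := congrFun h3 a
      rwa [Pi.single_apply] at this
    rw [Pi.single_apply]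
    have h7 : (Fin.cons t a : Fin (k + 1) → F2) = x ↔ t = x 0 ∧ a = Fin.tail x := by
      constructor
      · rintro rfl
        simp
      · rintro ⟨rfl, rfl⟩
        exact Fin.cons_self_tail x
    simp only [h7]
    rw [h6] at h5
    have h8 : u (Fin.cons 0 a) = (if a = Fin.tail x then 1 else 0) + u (Fin.cons 1 a) := by
      rw [← h6, add_assoc, add_self_F, add_zero]
    rcases zmod2_cases t with rfl | rfl
    · rw [h8, h5]
      rcases zmod2_cases (x 0) with h0 | h0 <;> by_cases ha : a = Fin.tail x <;>
        simp [h0, ha, one_add_one_F2]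
    · rw [h5]
      rcases zmod2_cases (x 0) with h0 | h0 <;> by_cases ha : a = Fin.tail x <;>
        simp [h0, ha]

lemma rep_hot (k : ℕ) : Rep (39 * (2 ^ k - 1)) (hot k) := by
  induction k with
  | zero =>
    have h := rep_of_stab (stab_delta (E := (Fin 0 → F2) × ((Fin 0 → F2) → F2))
      ((LinearMap.proj (R := ZMod 2) (φ := fun _ : Fin 0 → F2 => ZMod 2) (default : Fin 0 → F2)) ∘ₗ
        LinearMap.snd (ZMod 2) (Fin 0 → F2) ((Fin 0 → F2) → F2)) 1)
    have e0 : 39 * (2 ^ 0 - 1) = 0 := by norm_num
    rw [e0]
    convert h using 1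
    funext p
    obtain ⟨x, u⟩ := p
    unfold hot
    have : (u = Pi.single x 1) ↔ u default = 1 := by
      constructor
      · rintro rfl
        rw [Subsingleton.elim default x]
        simp
      · intro h
        funext y
        rw [Subsingleton.elim y x, Pi.single_eq_same, Subsingleton.elim x default, h]
    simp only [this]
    rfl
  | succ k ih =>
    let L : (Fin (k + 1) → F2) × ((Fin (k + 1) → F2) → F2) →ₗ[ZMod 2]
        (Fin k → F2) × ((Fin k → F2) → F2) :=
      { toFun := fun p => (Fin.tail p.1, fun a => p.2 (Fin.cons 0 a) + p.2 (Fin.cons 1 a))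
        map_add' := by
          intro p q
          refine Prod.ext ?_ ?_
          · funext i
            simp [Fin.tail]
          · funext a
            simp only [Prod.snd_add, Pi.add_apply]
            ring
        map_smul' := by
          intro c p
          refine Prod.ext ?_ ?_
          · funext i
            simp [Fin.tail]
          · funext a
            simp only [Prod.smul_snd, Pi.smul_apply, RingHom.id_apply, smul_eq_mul]
            ring }
    let A : (Fin k → F2) → ((Fin (k + 1) → F2) × ((Fin (k + 1) → F2) → F2) →ₗ[ZMod 2]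
        (F2 × F2) × F2) := fun a =>
      { toFun := fun p => ((p.2 (Fin.cons 1 a), p.2 (Fin.cons 0 a) + p.2 (Fin.cons 1 a)), p.1 0)
        map_add' := by
          intro p q
          simp only [Prod.snd_add, Prod.fst_add, Pi.add_apply, Prod.mk_add_mk, Prod.mk.injEq,
            and_true, true_and]
          ring
        map_smul' := by
          intro c p
          simp only [Prod.smul_snd, Prod.smul_fst, Pi.smul_apply, RingHom.id_apply, smul_eq_mul,
            Prod.smul_mk, mul_add] }
    have h1 := rep_comp L ih
    have h2 := rep_prod (Finset.univ : Finset (Fin k → F2)) (fun a p => andT (A a p))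
      (fun a => rep_comp (A a) rep_and)
    have h3 := rep_mul h1 h2
    have e1 : 39 * (2 ^ k - 1) + (Finset.univ : Finset (Fin k → F2)).card * 39 =
        39 * (2 ^ (k + 1) - 1) := by
      have h4 : (Finset.univ : Finset (Fin k → F2)).card = 2 ^ k := by
        rw [Finset.card_univ, Fintype.card_fun, Fintype.card_fin]
        rfl
      rw [h4, pow_succ]
      have : 1 ≤ 2 ^ k := Nat.one_le_two_pow
      omega
    rw [e1] at h3
    convert h3 using 1
    funext p
    obtain ⟨x, u⟩ := p
    exact hot_succ k x u

/-- **All Boolean functions.** -/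
theorem rep_boolean (k : ℕ) (s : (Fin k → F2) × (Fin k → F2) → F2) :
    Rep (78 * (2 ^ k - 1)) (fun p => chi (s p)) := by
  classical
  let X := Fin k → F2
  let U := X → F2
  let L1 : (X × X) × (U × U) →ₗ[ZMod 2] X × U :=
    LinearMap.prod (LinearMap.fst _ _ _ ∘ₗ LinearMap.fst _ _ _)
      (LinearMap.fst _ _ _ ∘ₗ LinearMap.snd _ _ _)
  let L2 : (X × X) × (U × U) →ₗ[ZMod 2] X × U :=
    LinearMap.prod (LinearMap.snd _ _ _ ∘ₗ LinearMap.fst _ _ _)
      (LinearMap.snd _ _ _ ∘ₗ LinearMap.snd _ _ _)
  have h1 := rep_comp L1 (rep_hot k)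
  have h2 := rep_comp L2 (rep_hot k)
  have hq : IsQuad (fun p : (X × X) × (U × U) => ∑ a : X, ∑ b : X,
      s (a, b) * (p.2.1 a * p.2.2 b)) := by
    refine IsQuad.sum _ _ fun a => IsQuad.sum _ _ fun b => IsQuad.smul _ ?_
    exact IsQuad.mul
      (LinearMap.proj (R := ZMod 2) (φ := fun _ : X => ZMod 2) a ∘ₗ
        LinearMap.fst (ZMod 2) U U ∘ₗ LinearMap.snd (ZMod 2) (X × X) (U × U))
      (LinearMap.proj (R := ZMod 2) (φ := fun _ : X => ZMod 2) b ∘ₗ
        LinearMap.snd (ZMod 2) U U ∘ₗ LinearMap.snd (ZMod 2) (X × X) (U × U))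
  have h3 := rep_mul (rep_of_stab (stab_chi hq)) (rep_mul h1 h2)
  have h4 := rep_sum h3
  have e1 : 0 + (39 * (2 ^ k - 1) + 39 * (2 ^ k - 1)) = 78 * (2 ^ k - 1) := by ring
  rw [e1] at h4
  convert h4 using 1
  funext p
  obtain ⟨x, y⟩ := p
  rw [Fintype.sum_prod_type]
  have e2 : ∀ (u w : U), chi (∑ a : X, ∑ b : X, s (a, b) * (u a * w b)) *
      (hot k (L1 ((x, y), (u, w))) * hot k (L2 ((x, y), (u, w)))) =
      if w = Pi.single y 1 then (if u = Pi.single x 1 then chi (s (x, y)) else 0) else 0 := by
    intro u w
    change chi (∑ a : X, ∑ b : X, s (a, b) * (u a * w b)) * (hot k (x, u) * hot k (y, w)) = _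
    unfold hot
    by_cases hw : w = Pi.single y 1
    · by_cases hu : u = Pi.single x 1
      · rw [if_pos hu, if_pos hw, if_pos hu, if_pos hw]
        subst hu hw
        congr 1
        rw [Finset.sum_eq_single x, Finset.sum_eq_single y]
        · simp
        · intro b _ hb
          simp [Pi.single_apply, hb]
        · intro h
          exact absurd (Finset.mem_univ _) h
        · intro a _ ha
          refine Finset.sum_eq_zero fun b _ => ?_
          simp [Pi.single_apply, ha]
        · intro h
          exact absurd (Finset.mem_univ _) h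
      · simp [hu]
    · simp [hw]
  have e3 : ∀ u : U, ∑ w : U, chi (∑ a : X, ∑ b : X, s (a, b) * (u a * w b)) *
      (hot k (L1 ((x, y), (u, w))) * hot k (L2 ((x, y), (u, w)))) =
      if u = Pi.single x 1 then chi (s (x, y)) else 0 := by
    intro u
    simp only [e2]
    rw [Finset.sum_ite_eq' Finset.univ (Pi.single y 1 : U), if_pos (Finset.mem_univ _)]
  simp only [e3]
  rw [Finset.sum_ite_eq' Finset.univ (Pi.single x 1 : U), if_pos (Finset.mem_univ _)]

lemma rep_mono {E : Type} [AddCommGroup E] [Module (ZMod 2) E] [Finite E] {d : ℕ} {f : E → ℂ}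
    (h : Rep d f) {d' : ℕ} (hd : d ≤ d') : Rep d' f := by
  induction d', hd using Nat.le_induction with
  | base => exact h
  | succ n _ ih =>
    have h1 := rep_comp (0 : E →ₗ[ZMod 2] F2) rep_vv
    have h2 := rep_mul ih h1
    convert h2 using 1
    funext x
    simp

end Pool.Agent.U8.Stab
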