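import Pool.Agent.U8.Stab.Boolean

set_option autoImplicit false

/-!
# Counting: some Boolean function is not a combination of few stabilizer functions
-/

open Module

namespace Pool.Agent.U8.Stab

attribute [local instance] finite_dual

section

variable {E : Type} [AddCommGroup E] [Module (ZMod 2) E]

/-- A nonzero stabilizer function is determined up to scalars by its eigenvalues. -/
lemma unique_of_eigen [Finite E] {f g : E → ℂ} (hf : IsStab f) {x₀ : E} (hx₀ : f x₀ ≠ 0)
    (h : ∀ p ∈ W f, ∃ c : ℂ, c ≠ 0 ∧ (∀ x, f (x + p.1) = c * chi (p.2 x) * f x) ∧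
      ∀ x, g (x + p.1) = c * chi (p.2 x) * g x) :
    ∃ c : ℂ, ∀ x, g x = c * f x := by
  let D : Submodule (ZMod 2) (Dual (ZMod 2) E) :=
    (W f).comap (LinearMap.inr (ZMod 2) E (Dual (ZMod 2) E))
  let A : Submodule (ZMod 2) E := (W f).map (LinearMap.fst (ZMod 2) E (Dual (ZMod 2) E))
  have hD : ∀ g' : E → ℂ, (∀ p ∈ W f, ∃ c : ℂ, c ≠ 0 ∧ (∀ x, f (x + p.1) = c * chi (p.2 x) * f x) ∧
      ∀ x, g' (x + p.1) = c * chi (p.2 x) * g' x) → ∀ x, g' x ≠ 0 → x + x₀ ∈ D.dualCoannihilator := by
    intro g' h' x hx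
    rw [Submodule.mem_dualCoannihilator]
    intro φ hφ
    obtain ⟨c, hc, h1, h2⟩ := h' (0, φ) hφ
    have h3 := h1 x₀
    have h4 := h2 x
    simp only [add_zero] at h3 h4
    have h5 : c * chi (φ x₀) = 1 := by
      have : (c * chi (φ x₀) - 1) * f x₀ = 0 := by linear_combination -h3
      rcases mul_eq_zero.1 this with h6 | h6
      · exact sub_eq_zero.1 h6
      · exact absurd h6 hx₀
    have h6 : c * chi (φ x) = 1 := by
      have : (c * chi (φ x) - 1) * g' x = 0 := by linear_combination -h4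
      rcases mul_eq_zero.1 this with h6 | h6
      · exact sub_eq_zero.1 h6
      · exact absurd h6 hx
    have h7 : φ x = φ x₀ := chi_inj (mul_left_cancel₀ hc (h6.trans h5.symm))
    rw [map_add, h7, add_self_F]
  have hf' : ∀ p ∈ W f, ∃ c : ℂ, c ≠ 0 ∧ (∀ x, f (x + p.1) = c * chi (p.2 x) * f x) ∧
      ∀ x, f (x + p.1) = c * chi (p.2 x) * f x := by
    rintro p ⟨c, hc, h1⟩
    exact ⟨c, hc, h1, h1⟩
  have hAD : A ≤ D.dualCoannihilator := by
    rintro _ ⟨⟨a, φ⟩, ⟨c, hc, h1⟩, rfl⟩
    have h2 : f (x₀ + a) ≠ 0 := by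
      have := h1 x₀
      simp only at this
      rw [this]
      exact mul_ne_zero (mul_ne_zero hc (chi_ne_zero _)) hx₀
    have h3 := hD f hf' _ h2
    have h4 : x₀ + a + x₀ = a := by
      rw [add_comm x₀ a, add_assoc, add_self_E, add_zero]
    rw [h4] at h3
    exact h3
  have hdim : finrank (ZMod 2) D.dualCoannihilator ≤ finrank (ZMod 2) A := by
    have e1 := Subspace.finrank_add_finrank_dualCoannihilator_eq D
    let π : W f →ₗ[ZMod 2] E := (LinearMap.fst (ZMod 2) E (Dual (ZMod 2) E)) ∘ₗ (W f).subtype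
    have e2 := LinearMap.finrank_range_add_finrank_ker π
    have e3 := (stab_iff f).1 hf
    have e4 : finrank (ZMod 2) (LinearMap.range π) ≤ finrank (ZMod 2) A := by
      refine Submodule.finrank_mono ?_
      rintro _ ⟨p, rfl⟩
      exact ⟨p.1, p.2, rfl⟩
    have e5 : finrank (ZMod 2) (LinearMap.ker π) ≤ finrank (ZMod 2) D := by
      have hmem : ∀ y : LinearMap.ker π, (y.1.1).2 ∈ D := by
        rintro ⟨⟨⟨a, φ⟩, hW⟩, hk⟩
        have ha : a = 0 := hk
        subst ha
        exact hW
      let τ : LinearMap.ker π →ₗ[ZMod 2] D :=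
        LinearMap.codRestrict D ((LinearMap.snd (ZMod 2) E (Dual (ZMod 2) E)) ∘ₗ
          (W f).subtype ∘ₗ (LinearMap.ker π).subtype) hmem
      refine LinearMap.finrank_le_finrank_of_injective (f := τ) ?_
      rw [← LinearMap.ker_eq_bot, LinearMap.ker_eq_bot']
      rintro ⟨⟨⟨a, φ⟩, hW⟩, hk⟩ h0
      have ha : a = 0 := hk
      have hφ : φ = 0 := congrArg Subtype.val h0
      subst ha hφ
      rfl
    omega
  have hA : A = D.dualCoannihilator := Submodule.eq_of_le_of_finrank_le hAD hdim
  refine ⟨g x₀ / f x₀, fun x => ?_⟩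
  by_cases hx : x + x₀ ∈ A
  · obtain ⟨⟨a, φ⟩, hp, ha⟩ := hx
    have ha' : a = x + x₀ := ha
    obtain ⟨c, hc, h1, h2⟩ := h _ hp
    have h3 := h1 x₀
    have h4 := h2 x₀
    have h5 : x₀ + (x + x₀) = x := by
      rw [add_comm x x₀, ← add_assoc, add_self_E, zero_add]
    simp only [ha', h5] at h3 h4
    rw [h3, h4]
    field_simp
  · rw [hA] at hx
    have h1 : f x = 0 := by
      by_contra hcon
      exact hx (hD f hf' x hcon)
    have h2 : g x = 0 := by
      by_contra hcon
      exact hx (hD g h x hcon)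
    rw [h1, h2, mul_zero]

/-- the finite set of possible data of a stabilizer function -/
abbrev Data (E : Type) [AddCommGroup E] [Module (ZMod 2) E] (m : ℕ) : Type :=
  Fin m → (E × Dual (ZMod 2) E) × Fin 4

/-- the functions with given data -/
def Sat {m : ℕ} (D : Data E m) (g : E → ℂ) : Prop :=
  ∀ i x, g (x + (D i).1.1) = Complex.I ^ ((D i).2 : ℕ) * chi ((D i).1.2 x) * g x

lemma sq_eq_one_iff_of_side_cases {c : ℂ} (h : c ^ 2 = 1) : c = 1 ∨ c = -1 := by
  have : (c - 1) * (c + 1) = 0 := by linear_combination h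
  rcases mul_eq_zero.1 this with h1 | h1
  · exact Or.inl (sub_eq_zero.1 h1)
  · exact Or.inr (by linear_combination h1)

lemma fourth_root {c : ℂ} (h : c ^ 2 = 1 ∨ c ^ 2 = -1) : ∃ k : Fin 4, c = Complex.I ^ (k : ℕ) := by
  rcases h with h | h
  · rcases sq_eq_one_iff_of_side_cases h with h | h
    · exact ⟨0, by simp [h]⟩
    · exact ⟨2, by simp [h]⟩
  · have h1 : (c - Complex.I) * (c + Complex.I) = 0 := by
      have := Complex.I_sq
      linear_combination h - this
    rcases mul_eq_zero.1 h1 with h2 | h2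
    · exact ⟨1, by simp [sub_eq_zero.1 h2]⟩
    · refine ⟨3, ?_⟩
      have h3 : c = -Complex.I := by linear_combination h2
      rw [h3]
      have : ((3 : Fin 4) : ℕ) = 3 := rfl
      rw [this, Complex.I_pow_three]

lemma exists_data [Finite E] {f : E → ℂ} (hf : IsStab f) (hne : ∃ x, f x ≠ 0) :
    ∃ D : Data E (finrank (ZMod 2) (E × Dual (ZMod 2) E)), Sat D f ∧
      ∀ g, Sat D g → ∃ c : ℂ, ∀ x, g x = c * f x := by
  obtain ⟨x₀, hx₀⟩ := hne
  let V := E × Dual (ZMod 2) E
  have hker : LinearMap.ker (W f).subtype = ⊥ := Submodule.ker_subtype _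
  have hex : ∃ r : V →ₗ[ZMod 2] W f, r ∘ₗ (W f).subtype = LinearMap.id :=
    LinearMap.exists_leftInverse_of_injective _ hker
  obtain ⟨r, hr⟩ := hex
  let b := Module.finBasis (ZMod 2) V
  -- the eigenvalues are fourth roots of unity
  have hroot : ∀ p ∈ W f, ∃ k : Fin 4, ∀ x, f (x + p.1) = Complex.I ^ (k : ℕ) * chi (p.2 x) * f x := by
    rintro ⟨a, φ⟩ ⟨c, hc, h⟩
    simp only at h
    have h1 := h x₀
    have h2 := h (x₀ + a)
    rw [add_assoc, add_self_E, add_zero, h1, map_add, chi_add] at h2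
    have h3 : c ^ 2 * chi (φ a) = 1 := by
      have h4 := chi_mul_self (φ x₀)
      have : (c ^ 2 * chi (φ a) - 1) * f x₀ = 0 := by
        have e : c * (chi (φ x₀) * chi (φ a)) * (c * chi (φ x₀) * f x₀) =
          c ^ 2 * chi (φ a) * (chi (φ x₀) * chi (φ x₀)) * f x₀ := by ring
        rw [e, h4, mul_one] at h2
        linear_combination -h2
      rcases mul_eq_zero.1 this with h6 | h6
      · exact sub_eq_zero.1 h6
      · exact absurd h6 hx₀
    have h5 : c ^ 2 = 1 ∨ c ^ 2 = -1 := by
      rcases zmod2_cases (φ a) with h6 | h6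
      · left
        rw [h6, chi_zero, mul_one] at h3
        exact h3
      · right
        rw [h6, chi_one] at h3
        linear_combination -h3
    obtain ⟨k, hk⟩ := fourth_root h5
    exact ⟨k, fun x => by rw [← hk]; exact h x⟩
  choose! κ hκ using hroot
  let D : Data E (finrank (ZMod 2) V) := fun i => ((r (b i)).1, κ (r (b i)).1)
  refine ⟨D, fun i x => hκ _ (r (b i)).2 x, fun g hg => ?_⟩
  refine unique_of_eigen hf hx₀ ?_
  -- the common relations form a subspace which contains the generators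
  let W' : Submodule (ZMod 2) V :=
    { carrier := {p | ∃ c : ℂ, c ≠ 0 ∧ (∀ x, f (x + p.1) = c * chi (p.2 x) * f x) ∧
        ∀ x, g (x + p.1) = c * chi (p.2 x) * g x}
      zero_mem' := ⟨1, one_ne_zero, fun x => by simp, fun x => by simp⟩
      add_mem' := by
        rintro p q ⟨c, hc, hp, hp'⟩ ⟨c', hc', hq, hq'⟩
        refine ⟨c * c' * chi (q.2 p.1), mul_ne_zero (mul_ne_zero hc hc') (chi_ne_zero _),
          fun x => ?_, fun x => ?_⟩
        · have h1 : x + (p + q).1 = x + p.1 + q.1 := (add_assoc x p.1 q.1).symm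
          rw [h1, hq, hp]
          have h2 : (p + q).2 x = p.2 x + q.2 x := rfl
          rw [h2, map_add, chi_add, chi_add]
          ring
        · have h1 : x + (p + q).1 = x + p.1 + q.1 := (add_assoc x p.1 q.1).symm
          rw [h1, hq', hp']
          have h2 : (p + q).2 x = p.2 x + q.2 x := rfl
          rw [h2, map_add, chi_add, chi_add]
          ring
      smul_mem' := by
        rintro t p ⟨c, hc, hp, hp'⟩
        rcases zmod2_cases t with rfl | rfl
        · exact ⟨1, one_ne_zero, fun x => by simp, fun x => by simp⟩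
        · rw [one_smul]
          exact ⟨c, hc, hp, hp'⟩ }
  intro p hp
  change p ∈ W'
  have h1 : p = (r p).1 := by
    have := LinearMap.congr_fun hr ⟨p, hp⟩
    simp only [LinearMap.comp_apply, Submodule.subtype_apply, LinearMap.id_apply] at this
    rw [this]
  have h2 : ∀ v : V, (r v).1 ∈ W' := by
    intro v
    have h3 : W'.comap ((W f).subtype ∘ₗ r) = ⊤ := by
      rw [eq_top_iff, ← b.span_eq, Submodule.span_le]
      rintro _ ⟨i, rfl⟩
      exact ⟨Complex.I ^ (κ (r (b i)).1 : ℕ), pow_ne_zero _ Complex.I_ne_zero,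
        fun x => hκ _ (r (b i)).2 x, fun x => hg i x⟩
    have h4 : v ∈ W'.comap ((W f).subtype ∘ₗ r) := by
      rw [h3]
      trivial
    exact h4
  rw [h1]
  exact h2 p

open Classical in
/-- a representative of the functions with given data -/
noncomputable def repr (E : Type) [AddCommGroup E] [Module (ZMod 2) E] (m : ℕ) (D : Data E m) :
    E → ℂ :=
  if h : ∃ f : E → ℂ, Sat D f ∧ ∀ g, Sat D g → ∃ c : ℂ, ∀ x, g x = c * f x then h.choose else 0

lemma exists_repr [Finite E] {f : E → ℂ} (hf : IsStab f) :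
    ∃ (D : Data E (finrank (ZMod 2) (E × Dual (ZMod 2) E))) (c : ℂ), ∀ x,
      f x = c * repr E _ D x := by
  by_cases hne : ∃ x, f x ≠ 0
  · obtain ⟨D, h1, h2⟩ := exists_data hf hne
    have h : ∃ f : E → ℂ, Sat D f ∧ ∀ g, Sat D g → ∃ c : ℂ, ∀ x, g x = c * f x := ⟨f, h1, h2⟩
    obtain ⟨c, hc⟩ := h.choose_spec.2 f h1
    refine ⟨D, c, fun x => ?_⟩
    unfold repr
    rw [dif_pos h]
    exact hc x
  · push Not at hne
    exact ⟨fun _ => ((0, 0), 0), 0, fun x => by rw [hne, zero_mul]⟩

end

/-- A subspace of dimension at most `r` contains at most `2 ^ r` vectors with entries `1`, `-1`. -/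
lemma card_signs_le {X : Type} [Fintype X] [DecidableEq X] (V : Submodule ℂ (X → ℂ)) :
    Nat.card {s : X → F2 // (fun x => chi (s x)) ∈ V} ≤ 2 ^ finrank ℂ V := by
  classical
  let ev : X → Dual ℂ V := fun x => (LinearMap.proj x) ∘ₗ V.subtype
  obtain ⟨b, hb1, hb2, hb3⟩ := exists_linearIndependent ℂ (Set.range ev)
  have hfin : b.Finite := (Set.finite_range ev).subset hb1
  have hcard : b.ncard ≤ finrank ℂ V := by
    have h1 := hb3.setFinite
    have h2 : Fintype b := hfin.fintype
    have h3 := LinearIndependent.fintype_card_le_finrank hb3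
    rw [Subspace.dual_finrank_eq] at h3
    rwa [Set.ncard_eq_toFinset_card', Set.toFinset_card]
  have hch : ∀ φ : b, ∃ x, ev x = φ.1 := fun φ => hb1 φ.2
  choose pt hpt using hch
  -- restriction to the chosen points is injective
  have hinj : Function.Injective (fun (s : {s : X → F2 // (fun x => chi (s x)) ∈ V}) (φ : b) =>
      s.1 (pt φ)) := by
    rintro ⟨s, hs⟩ ⟨t, ht⟩ hst
    have h1 : ∀ φ : b, s (pt φ) = t (pt φ) := fun φ => congrFun hst φ
    let w : V := ⟨fun x => chi (s x), hs⟩ - ⟨fun x => chi (t x), ht⟩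
    have h2 : ∀ φ ∈ b, φ w = 0 := by
      intro φ hφ
      have e : ev (pt ⟨φ, hφ⟩) = φ := hpt ⟨φ, hφ⟩
      rw [← e]
      change chi (s (pt ⟨φ, hφ⟩)) - chi (t (pt ⟨φ, hφ⟩)) = 0
      rw [h1, sub_self]
    have h3 : ∀ φ ∈ Submodule.span ℂ b, φ w = 0 := by
      intro φ hφ
      induction hφ using Submodule.span_induction with
      | mem x hx => exact h2 x hx
      | zero => simp
      | add x y _ _ hx hy => rw [LinearMap.add_apply, hx, hy, add_zero]
      | smul a x _ hx => rw [LinearMap.smul_apply, hx, smul_zero]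
    have h4 : ∀ x, chi (s x) - chi (t x) = 0 := by
      intro x
      have : ev x ∈ Submodule.span ℂ b := by
        rw [hb2]
        exact Submodule.subset_span ⟨x, rfl⟩
      exact h3 _ this
    have h5 : s = t := by
      funext x
      exact chi_inj (sub_eq_zero.1 (h4 x))
    subst h5
    rfl
  have _ : Finite b := hfin.to_subtype
  have h6 := Nat.card_le_card_of_injective _ hinj
  refine h6.trans ?_
  rw [Nat.card_fun]
  have h7 : Nat.card F2 = 2 := by simp [F2]
  rw [h7, Nat.card_coe_set_eq]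
  exact Nat.pow_le_pow_right (by norm_num) hcard

/-- **Counting.** If every sign function is a combination of `r` stabilizer functions then `r` is
large. -/
theorem counting {E : Type} [AddCommGroup E] [Module (ZMod 2) E] [Finite E] (r n : ℕ)
    (hn : finrank (ZMod 2) E = n)
    (h : ∀ s : E → F2, ∃ (c : Fin r → ℂ) (g : Fin r → E → ℂ), (∀ i, IsStab (g i)) ∧
      ∀ x, chi (s x) = ∑ i, c i * g i x) :
    2 ^ n ≤ r * (2 * n + 1) ^ 2 := by
  classical
  have _ : Fintype E := Fintype.ofFinite E
  have hcardE : Nat.card E = 2 ^ n := by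
    rw [Module.natCard_eq_pow_finrank (K := ZMod 2) (V := E), hn]
    simp
  have hcardD : Nat.card (Dual (ZMod 2) E) = 2 ^ n := by
    rw [Module.natCard_eq_pow_finrank (K := ZMod 2) (V := Dual (ZMod 2) E),
      Subspace.dual_finrank_eq, hn]
    simp
  set m := finrank (ZMod 2) (E × Dual (ZMod 2) E) with hm
  have hm2 : m = 2 * n := by
    rw [hm, Module.finrank_prod, Subspace.dual_finrank_eq, hn]
    ring
  -- every sign function is in the span of the representatives of some data
  have h1 : ∀ s : E → F2, ∃ D : Fin r → Data E m,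
      (fun x => chi (s x)) ∈ Submodule.span ℂ (Set.range fun i => repr E m (D i)) := by
    intro s
    obtain ⟨c, g, hg, hs⟩ := h s
    choose D a hD using fun i => exists_repr (hg i)
    refine ⟨D, ?_⟩
    have h2 : (fun x => chi (s x)) = ∑ i, (c i * a i) • repr E m (D i) := by
      funext x
      rw [hs, Finset.sum_apply]
      refine Finset.sum_congr rfl fun i _ => ?_
      rw [hD i x]
      simp only [Pi.smul_apply, smul_eq_mul]
      ring
    rw [h2]
    exact Submodule.sum_mem _ fun i _ => Submodule.smul_mem _ _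
      (Submodule.subset_span ⟨i, rfl⟩)
  choose F hF using h1
  have _ : Fintype (Dual (ZMod 2) E) := Fintype.ofFinite _
  have h3 : (Finset.univ : Finset (E → F2)).card ≤
      2 ^ r * (Finset.univ.image F).card := by
    refine Finset.card_le_mul_card_image _ _ ?_
    intro D _
    have h4 : finrank ℂ (Submodule.span ℂ (Set.range fun i => repr E m (D i))) ≤ r := by
      have := finrank_range_le_card (R := ℂ) (fun i => repr E m (D i))
      rwa [Fintype.card_fin] at this
    have h5 := card_signs_le (Submodule.span ℂ (Set.range fun i => repr E m (D i)))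
    refine le_trans ?_ (h5.trans (Nat.pow_le_pow_right (by norm_num) h4))
    rw [Nat.card_eq_fintype_card, Fintype.card_subtype]
    refine Finset.card_le_card ?_
    intro s hs
    rw [Finset.mem_filter] at hs ⊢
    refine ⟨Finset.mem_univ _, ?_⟩
    rw [← hs.2]
    exact hF s
  have h6 : (Finset.univ.image F).card ≤ Fintype.card (Fin r → Data E m) := Finset.card_le_univ _
  have h7 : Fintype.card (Fin r → Data E m) = 2 ^ ((2 * n + 2) * (2 * n) * r) := by
    rw [Fintype.card_fun, Fintype.card_fin, Fintype.card_fun, Fintype.card_fin, Fintype.card_prod,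
      Fintype.card_prod, Fintype.card_fin, ← Nat.card_eq_fintype_card (α := E),
      ← Nat.card_eq_fintype_card (α := Dual (ZMod 2) E), hcardE, hcardD, hm2]
    have : 2 ^ n * 2 ^ n * 4 = 2 ^ (2 * n + 2) := by
      rw [pow_add, two_mul, pow_add]
      norm_num
    rw [this, ← pow_mul, ← pow_mul]
    congr 1
    ring
  have h8 : (Finset.univ : Finset (E → F2)).card = 2 ^ 2 ^ n := by
    rw [Finset.card_univ, Fintype.card_fun, ← Nat.card_eq_fintype_card (α := E), hcardE]
    rfl
  rw [h8] at h3
  have h9 : 2 ^ 2 ^ n ≤ 2 ^ (r + (2 * n + 2) * (2 * n) * r) := by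
    rw [pow_add, ← h7]
    exact h3.trans (Nat.mul_le_mul_left _ h6)
  have h10 := (Nat.pow_le_pow_iff_right (by norm_num : 1 < 2)).1 h9
  refine h10.trans (le_of_eq ?_)
  ring

end Pool.Agent.U8.Stab
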