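import Pool.Agent.U8.Stab.Rep

set_option autoImplicit false

/-!
# The controlled-controlled-Z gate from 39 copies of `v`
-/

open Module

namespace Pool.Agent.U8.Stab

attribute [local instance] finite_dual

abbrev F2 := ZMod 2

/-- `ρ ^ t` for `t = 0, 1` -/
noncomputable def pw (ρ : ℂ) (t : F2) : ℂ := if t = 0 then 1 else ρ

@[simp] lemma pw_zero (ρ : ℂ) : pw ρ 0 = 1 := by simp [pw]

@[simp] lemma pw_one (ρ : ℂ) : pw ρ 1 = ρ := by simp [pw]

lemma sum_F2 (f : F2 → ℂ) : ∑ t : F2, f t = f 0 + f 1 := by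
  have hu : (Finset.univ : Finset (ZMod 2)) = {0, 1} := rfl
  rw [hu, Finset.sum_pair (by decide)]

lemma one_add_one_F2 : (1 : F2) + 1 = 0 := by decide

/-- the copy of `v` -/
lemma rep_vv : Rep 1 (fun t : F2 => pw ((Real.sqrt 2 : ℝ) : ℂ) t) := by
  let φ : Dual (ZMod 2) (F2 × (Fin 1 → ZMod 2)) :=
    LinearMap.fst _ _ _ + (LinearMap.proj (R := ZMod 2) (φ := fun _ : Fin 1 => ZMod 2) 0) ∘ₗ
      LinearMap.snd (ZMod 2) F2 (Fin 1 → ZMod 2)
  refine ⟨fun p => if φ p = 0 then (1 : ℂ) else 0, stab_delta φ 0, fun t => ?_⟩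
  rw [← (Equiv.funUnique (Fin 1) F2).symm.sum_comp, sum_F2]
  have e : ∀ s : F2, (Equiv.funUnique (Fin 1) F2).symm s = fun _ => s := fun s => rfl
  simp only [e, φ, LinearMap.add_apply, LinearMap.fst_apply, LinearMap.comp_apply,
    LinearMap.snd_apply, LinearMap.proj_apply, vpow, vv, Finset.univ_unique, Finset.prod_singleton]
  rcases zmod2_cases t with rfl | rfl <;> simp [one_add_one_F2]

lemma pw_mul {ρ ρ' : ℂ} {m m' : ℕ} (h : Rep m (pw ρ)) (h' : Rep m' (pw ρ')) :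
    Rep (m + m') (pw (ρ * ρ')) := by
  have := rep_mul h h'
  convert this using 1
  funext t
  rcases zmod2_cases t with rfl | rfl <;> simp

lemma pw_neg {ρ : ℂ} {m : ℕ} (h : Rep m (pw ρ)) : Rep m (pw (-ρ)) := by
  have h0 : Rep 0 (fun t : F2 => chi t) :=
    rep_of_stab (stab_chi (IsQuad.lin (LinearMap.id (R := ZMod 2) (M := F2))))
  have := rep_mul h0 h
  rw [zero_add] at this
  convert this using 1
  funext t
  rcases zmod2_cases t with rfl | rfl <;> simp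

lemma pw_inv {ρ : ℂ} (hρ : ρ ≠ 0) {m : ℕ} (h : Rep m (pw ρ)) : Rep m (pw ρ⁻¹) := by
  have := rep_smul ρ⁻¹ (rep_translate (1 : F2) h)
  convert this using 1
  funext t
  rcases zmod2_cases t with rfl | rfl
  · simp [hρ]
  · simp [one_add_one_F2]

lemma pw_had {ρ : ℂ} (hρ : 1 + ρ ≠ 0) {m : ℕ} (h : Rep m (pw ρ)) :
    Rep m (pw ((1 - ρ) / (1 + ρ))) := by
  have h0 : Rep 0 (fun p : F2 × F2 => chi (p.1 * p.2)) :=
    rep_of_stab (stab_chi (IsQuad.mul (LinearMap.fst (ZMod 2) F2 F2) (LinearMap.snd (ZMod 2) F2 F2)))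
  have h1 : Rep m (fun p : F2 × F2 => pw ρ p.2) :=
    rep_comp (LinearMap.snd (ZMod 2) F2 F2) h
  have h2 := rep_sum (f := fun p : F2 × F2 => chi (p.1 * p.2) * pw ρ p.2) (rep_mul h0 h1)
  have := rep_smul (1 + ρ)⁻¹ h2
  rw [zero_add] at this
  convert this using 1
  funext t
  rw [sum_F2]
  rcases zmod2_cases t with rfl | rfl
  · simp [hρ]
  · simp
    field_simp
    ring

/-- the gate `σ ^ (2 g y z)` from the gates `σ ^ (g y)` and `σ ^ (- g y)` -/
lemma dbl {E : Type} [AddCommGroup E] [Module (ZMod 2) E] [Finite E] (g : E → F2) {σ : ℂ}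
    (hσ : σ ≠ 0) {m m' : ℕ}
    (h : Rep m (fun p : E × F2 => pw σ (g p.1 * p.2)))
    (h' : Rep m' (fun p : E × F2 => pw σ⁻¹ (g p.1 * p.2))) :
    Rep (m + m + m') (fun p : (E × F2) × F2 => pw (σ ^ 2) (g p.1.1 * p.1.2 * p.2)) := by
  let L1 : (E × F2) × F2 →ₗ[ZMod 2] E × F2 := LinearMap.fst _ _ _
  let L2 : (E × F2) × F2 →ₗ[ZMod 2] E × F2 :=
    LinearMap.prod (LinearMap.fst _ _ _ ∘ₗ LinearMap.fst _ _ _) (LinearMap.snd _ _ _)
  let L3 : (E × F2) × F2 →ₗ[ZMod 2] E × F2 :=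
    LinearMap.prod (LinearMap.fst _ _ _ ∘ₗ LinearMap.fst _ _ _)
      (LinearMap.snd _ _ _ ∘ₗ LinearMap.fst _ _ _ + LinearMap.snd _ _ _)
  have h1 := rep_comp L1 h
  have h2 := rep_comp L2 h
  have h3 := rep_comp L3 h'
  have := rep_mul (rep_mul h1 h2) h3
  convert this using 1
  funext p
  obtain ⟨⟨x, y⟩, z⟩ := p
  change pw (σ ^ 2) (g x * y * z) = pw σ (g x * y) * pw σ (g x * z) * pw σ⁻¹ (g x * (y + z))
  rcases zmod2_cases (g x) with hg | hg <;> rcases zmod2_cases y with rfl | rfl <;>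
    rcases zmod2_cases z with rfl | rfl <;> rw [hg] <;>
    simp [hσ, one_add_one_F2, sq]

lemma dbl_inv {E : Type} [AddCommGroup E] [Module (ZMod 2) E] [Finite E] (g : E → F2) {σ : ℂ}
    (hσ : σ ≠ 0) {m m' : ℕ}
    (h : Rep m (fun p : E × F2 => pw σ (g p.1 * p.2)))
    (h' : Rep m' (fun p : E × F2 => pw σ⁻¹ (g p.1 * p.2))) :
    Rep (m' + m' + m) (fun p : (E × F2) × F2 => pw (σ ^ 2)⁻¹ (g p.1.1 * p.1.2 * p.2)) := by
  have := dbl g (inv_ne_zero hσ) h' (by rwa [inv_inv])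
  rwa [inv_pow] at this

lemma sqrt_sq : (((Real.sqrt 2 : ℝ) : ℂ)) * ((Real.sqrt 2 : ℝ) : ℂ) = 2 := by
  rw [← Complex.ofReal_mul, Real.mul_self_sqrt (by norm_num)]
  norm_num

lemma sqrt_ne : ((Real.sqrt 2 : ℝ) : ℂ) ≠ 0 := by
  intro h
  have := sqrt_sq
  rw [h] at this
  norm_num at this

/-- `2 ^ (x y)` and `2 ^ (- x y)` -/
lemma rep_two : Rep 3 (fun p : F2 × F2 => pw 2 (p.1 * p.2)) ∧
    Rep 3 (fun p : F2 × F2 => pw 2⁻¹ (p.1 * p.2)) := by
  have key : ∀ σ : ℂ, σ ≠ 0 → Rep 1 (pw σ) → Rep 1 (pw σ⁻¹) →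
      Rep 3 (fun p : F2 × F2 => pw (σ * σ) (p.1 * p.2)) := by
    intro σ hσ h h'
    have h1 := rep_comp (LinearMap.fst (ZMod 2) F2 F2) h
    have h2 := rep_comp (LinearMap.snd (ZMod 2) F2 F2) h
    have h3 := rep_comp (LinearMap.fst (ZMod 2) F2 F2 + LinearMap.snd (ZMod 2) F2 F2) h'
    have := rep_mul (rep_mul h1 h2) h3
    convert this using 1
    funext p
    obtain ⟨x, y⟩ := p
    simp only [LinearMap.fst_apply, LinearMap.snd_apply, LinearMap.add_apply]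
    rcases zmod2_cases x with rfl | rfl <;> rcases zmod2_cases y with rfl | rfl <;>
      simp [hσ, one_add_one_F2]
  have h1 := rep_vv
  have h2 := pw_inv sqrt_ne h1
  refine ⟨?_, ?_⟩
  · have := key _ sqrt_ne h1 h2
    rwa [sqrt_sq] at this
  · have := key _ (inv_ne_zero sqrt_ne) h2 (by rw [inv_inv]; exact h1)
    rwa [← mul_inv, sqrt_sq] at this

/-- `16 ^ (x y z u)` -/
lemma rep_sixteen : Rep 27 (fun p : ((F2 × F2) × F2) × F2 =>
    pw 16 (p.1.1.1 * p.1.1.2 * p.1.2 * p.2)) := by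
  obtain ⟨h1, h2⟩ := rep_two
  have h3 := dbl (fun x : F2 => x) (by norm_num : (2 : ℂ) ≠ 0) h1 h2
  have h4 := dbl_inv (fun x : F2 => x) (by norm_num : (2 : ℂ) ≠ 0) h1 h2
  have h5 := dbl (fun x : F2 × F2 => x.1 * x.2) (by norm_num : (2 ^ 2 : ℂ) ≠ 0) h3 h4
  have e : ((2 : ℂ) ^ 2) ^ 2 = 16 := by norm_num
  rw [e] at h5
  exact h5

/-- `(-2/17) ^ t` -/
lemma rep_ratio : Rep 12 (pw (-2 / 17)) := by
  have h1 := rep_vv
  have h2 : Rep 2 (pw 2) := by
    have := pw_mul h1 h1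
    rwa [sqrt_sq] at this
  have h3 : Rep 2 (pw 3) := by
    have := pw_neg (pw_inv (by norm_num) (pw_had (by norm_num : (1 : ℂ) + 2 ≠ 0) h2))
    convert this using 2
    norm_num
  have h9 : Rep 4 (pw 9) := by
    have := pw_mul h3 h3
    convert this using 2
    norm_num
  have h8 : Rep 6 (pw 8) := by
    have := pw_mul h2 (pw_mul h2 h2)
    convert this using 2
    norm_num
  have h89 : Rep 10 (pw (8 / 9)) := by
    have := pw_mul h8 (pw_inv (by norm_num) h9)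
    convert this using 2
    norm_num
  have h17 : Rep 10 (pw (1 / 17)) := by
    have := pw_had (by norm_num : (1 : ℂ) + 8 / 9 ≠ 0) h89
    convert this using 2
    norm_num
  have := pw_neg (pw_mul h17 h2)
  convert this using 2
  norm_num

/-- the gate CCZ -/
lemma rep_ccz : Rep 39 (fun p : (F2 × F2) × F2 => chi (p.1.1 * p.1.2 * p.2)) := by
  have h1 := rep_comp (LinearMap.snd (ZMod 2) ((F2 × F2) × F2) F2) rep_ratio
  have h2 := rep_smul (17 / 15) (rep_sum (f := fun p : ((F2 × F2) × F2) × F2 =>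
    pw (-2 / 17) (LinearMap.snd (ZMod 2) ((F2 × F2) × F2) F2 p) *
      pw 16 (p.1.1.1 * p.1.1.2 * p.1.2 * p.2)) (rep_mul h1 rep_sixteen))
  convert h2 using 1
  funext p
  rw [sum_F2]
  rcases zmod2_cases (p.1.1 * p.1.2 * p.2) with h | h <;> simp [h] <;> norm_num

/-- the tensor of the logical conjunction -/
noncomputable def andT (p : (F2 × F2) × F2) : ℂ := if p.1.1 = p.1.2 * p.2 then 1 else 0

lemma rep_and : Rep 39 andT := by
  have h0 : Rep 0 (fun p : ((F2 × F2) × F2) × F2 => chi (p.2 * p.1.1.1)) :=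
    rep_of_stab (stab_chi (IsQuad.mul (LinearMap.snd (ZMod 2) _ F2)
      (LinearMap.fst (ZMod 2) F2 F2 ∘ₗ LinearMap.fst (ZMod 2) (F2 × F2) F2 ∘ₗ
        LinearMap.fst (ZMod 2) ((F2 × F2) × F2) F2)))
  let L : ((F2 × F2) × F2) × F2 →ₗ[ZMod 2] (F2 × F2) × F2 :=
    LinearMap.prod (LinearMap.prod (LinearMap.snd _ _ _)
      (LinearMap.snd (ZMod 2) F2 F2 ∘ₗ LinearMap.fst (ZMod 2) (F2 × F2) F2 ∘ₗ
        LinearMap.fst (ZMod 2) ((F2 × F2) × F2) F2))
      (LinearMap.snd (ZMod 2) (F2 × F2) F2 ∘ₗ LinearMap.fst (ZMod 2) ((F2 × F2) × F2) F2)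
  have h1 := rep_comp L rep_ccz
  have h2 := rep_smul (1 / 2) (rep_sum (rep_mul h0 h1))
  rw [zero_add] at h2
  convert h2 using 1
  funext p
  rw [sum_F2]
  obtain ⟨⟨w, u⟩, t⟩ := p
  change (if w = u * t then (1 : ℂ) else 0) =
    1 / 2 * (chi (0 * w) * chi (0 * u * t) + chi (1 * w) * chi (1 * u * t))
  rcases zmod2_cases w with rfl | rfl <;> rcases zmod2_cases u with rfl | rfl <;>
    rcases zmod2_cases t with rfl | rfl <;> simp <;> norm_num

end Pool.Agent.U8.Stab
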