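import Pool.Agent.U8.Stab.Basic

set_option autoImplicit false

/-!
# Functions obtained from `v ⊗ ... ⊗ v` by contraction with a stabilizer function
-/

open Module

namespace Pool.Agent.U8.Stab

section

variable {E E' Z : Type} [AddCommGroup E] [Module (ZMod 2) E] [AddCommGroup E']
  [Module (ZMod 2) E'] [AddCommGroup Z] [Module (ZMod 2) Z]

attribute [local instance] finite_dual

lemma IsQuad.comp {q : E → ZMod 2} (h : IsQuad q) (L : E' →ₗ[ZMod 2] E) :
    IsQuad (fun x => q (L x)) := by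
  intro a
  obtain ⟨φ, κ, h1⟩ := h (L a)
  exact ⟨φ ∘ₗ L, κ, fun x => by simp [h1]⟩

open Classical in
lemma sum_dual [Fintype E] [Fintype (Dual (ZMod 2) E)] (y : E) :
    ∑ w : Dual (ZMod 2) E, chi (w y) = if y = 0 then (Fintype.card E : ℂ) else 0 := by
  split_ifs with h
  · subst h
    have h1 : Nat.card (Dual (ZMod 2) E) = Nat.card E := by
      rw [Module.natCard_eq_pow_finrank (K := ZMod 2) (V := E),
        Module.natCard_eq_pow_finrank (K := ZMod 2) (V := Dual (ZMod 2) E),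
        Subspace.dual_finrank_eq]
    rw [Nat.card_eq_fintype_card, Nat.card_eq_fintype_card] at h1
    simp [h1]
  · have h1 : ∃ w₀ : Dual (ZMod 2) E, w₀ y ≠ 0 := by
      by_contra hcon
      push Not at hcon
      exact h ((Module.forall_dual_apply_eq_zero_iff (ZMod 2) y).1 hcon)
    obtain ⟨w₀, hw⟩ := h1
    have hw1 : w₀ y = 1 := (zmod2_cases _).resolve_left hw
    have h2 : ∑ w : Dual (ZMod 2) E, chi (w y) = ∑ w : Dual (ZMod 2) E, chi ((w + w₀) y) :=
      (Equiv.sum_comp (Equiv.addRight w₀) (fun w : Dual (ZMod 2) E => chi (w y))).symm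
    have h3 : ∑ w : Dual (ZMod 2) E, chi ((w + w₀) y) = - ∑ w : Dual (ZMod 2) E, chi (w y) := by
      rw [← Finset.sum_neg_distrib]
      refine Finset.sum_congr rfl fun w _ => ?_
      rw [LinearMap.add_apply, chi_add, hw1, chi_one]
      ring
    rw [h3] at h2
    have h4 : (2 : ℂ) * ∑ w : Dual (ZMod 2) E, chi (w y) = 0 := by linear_combination h2
    simpa using h4

/-- evaluation of functionals is a quadratic function -/
lemma IsQuad.eval (L : E' →ₗ[ZMod 2] E) :
    IsQuad (fun p : E' × (E × Dual (ZMod 2) E) => p.2.2 (p.2.1 + L p.1)) := by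
  rintro ⟨a, b, w⟩
  refine ⟨w ∘ₗ (LinearMap.fst _ _ _ ∘ₗ LinearMap.snd _ _ _ + L ∘ₗ LinearMap.fst _ _ _) +
    (Dual.eval (ZMod 2) E (b + L a)) ∘ₗ LinearMap.snd _ _ _ ∘ₗ LinearMap.snd _ _ _,
    w (b + L a), ?_⟩
  rintro ⟨x, y, u⟩
  simp only [Prod.mk_add_mk, LinearMap.add_apply, LinearMap.comp_apply, LinearMap.fst_apply,
    LinearMap.snd_apply, Dual.eval_apply, map_add]
  ring

/-- **Linear pullbacks of stabilizer functions are stabilizer functions.** -/
lemma stab_comp [Finite E] [Finite E'] (L : E' →ₗ[ZMod 2] E) {f : E → ℂ} (hf : IsStab f) :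
    IsStab (fun x => f (L x)) := by
  classical
  have _ : Fintype E := Fintype.ofFinite E
  have _ : Fintype (Dual (ZMod 2) E) := Fintype.ofFinite _
  have h1 : IsStab (fun p : E × Dual (ZMod 2) E => f p.1 * (1 : ℂ)) :=
    stab_prod (f := f) (g := fun _ => (1 : ℂ)) hf (stab_const 1)
  have h2 : IsStab (fun p : E' × (E × Dual (ZMod 2) E) => (1 : ℂ) * (f p.2.1 * 1)) :=
    stab_prod (f := fun _ : E' => (1 : ℂ)) (g := fun p : E × Dual (ZMod 2) E => f p.1 * (1 : ℂ))
      (stab_const 1) h1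
  have h3' : IsStab (fun x => ∑ z : E × Dual (ZMod 2) E,
      chi (z.2 (z.1 + L x)) * (1 * (f z.1 * 1))) :=
    stab_sum (f := fun p : E' × (E × Dual (ZMod 2) E) => 
      chi (p.2.2 (p.2.1 + L p.1)) * ((1 : ℂ) * (f p.2.1 * 1))) (stab_quad (IsQuad.eval L) h2)
  have h3 := stab_smul (Fintype.card E : ℂ)⁻¹ h3'
  have hne : (Fintype.card E : ℂ) ≠ 0 := by
    exact_mod_cast Fintype.card_ne_zero
  have h4 : (fun x => f (L x)) = (fun x => (Fintype.card E : ℂ)⁻¹ *
      ∑ z : E × Dual (ZMod 2) E, chi (z.2 (z.1 + L x)) * (1 * (f z.1 * 1))) := by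
    funext x
    rw [Fintype.sum_prod_type]
    have h5 : ∀ y : E, ∑ w : Dual (ZMod 2) E, chi (w (y + L x)) * (1 * (f y * 1)) =
        if y = L x then (Fintype.card E : ℂ) * f y else 0 := by
      intro y
      rw [← Finset.sum_mul, sum_dual]
      have h6 : y + L x = 0 ↔ y = L x := by
        constructor
        · intro h
          calc y = y + (L x + L x) := by rw [add_self_E, add_zero]
            _ = (y + L x) + L x := by rw [add_assoc]
            _ = L x := by rw [h, zero_add]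
        · rintro rfl
          exact add_self_E _
      by_cases h7 : y = L x
      · rw [if_pos (h6.2 h7), if_pos h7]
        ring
      · rw [if_neg (fun h => h7 (h6.1 h)), if_neg h7]
        ring
    simp only [h5]
    rw [Finset.sum_ite_eq' Finset.univ (L x)]
    rw [if_pos (Finset.mem_univ _), ← mul_assoc, inv_mul_cancel₀ hne, one_mul]
  rw [h4]
  exact h3

lemma stab_mul [Finite E] {f g : E → ℂ} (hf : IsStab f) (hg : IsStab g) :
    IsStab (fun x => f x * g x) :=
  stab_comp (LinearMap.prod (LinearMap.id (R := ZMod 2) (M := E)) LinearMap.id) (stab_prod hf hg)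

lemma stab_chi [Finite E] {q : E → ZMod 2} (hq : IsQuad q) : IsStab (fun x => chi (q x)) := by
  have := stab_quad hq (stab_const (E := E) 1)
  simpa using this

/-- contraction -/
lemma stab_contract [Finite E] [Fintype E'] {K : E × E' → ℂ} {T : E' → ℂ} (hK : IsStab K)
    (hT : IsStab T) : IsStab (fun x => ∑ y, K (x, y) * T y) :=
  stab_sum (f := fun p : E × E' => K p * T p.2)
    (stab_mul hK (stab_comp (LinearMap.snd (ZMod 2) E E') hT))

/-- indicator function of a hyperplane -/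
lemma stab_delta [Finite E] (φ : Dual (ZMod 2) E) (c : ZMod 2) :
    IsStab (fun x => if φ x = c then (1 : ℂ) else 0) := by
  have hq : IsQuad (fun p : E × ZMod 2 => p.2 * φ p.1 + c * p.2) :=
    (IsQuad.mul (LinearMap.snd (ZMod 2) E (ZMod 2)) (φ ∘ₗ LinearMap.fst (ZMod 2) E (ZMod 2))).add
      ((IsQuad.lin (LinearMap.snd (ZMod 2) E (ZMod 2))).smul c)
  have h := stab_smul (1 / 2 : ℂ) (stab_sum (stab_chi hq))
  convert h using 2 with x
  have hu : (Finset.univ : Finset (ZMod 2)) = {0, 1} := rfl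
  rw [hu, Finset.sum_pair (by decide)]
  simp only [zero_mul, mul_zero, add_zero, chi_zero, one_mul, mul_one]
  rcases zmod2_cases (φ x) with h1 | h1 <;> rcases zmod2_cases c with h2 | h2 <;> rw [h1, h2]
  · simp; norm_num
  · simp
  · simp
  · have : (1 : ZMod 2) + 1 = 0 := by decide
    simp [this]; norm_num

end

/-! ### Contractions of powers of `v` -/

/-- the vector `e₀ + √2 e₁` -/
noncomputable def vv (t : ZMod 2) : ℂ := if t = 0 then 1 else ((Real.sqrt 2 : ℝ) : ℂ)

/-- `v ⊗ ... ⊗ v` -/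
noncomputable def vpow (d : ℕ) (y : Fin d → ZMod 2) : ℂ := ∏ j, vv (y j)

section

variable {E E' Z : Type} [AddCommGroup E] [Module (ZMod 2) E] [AddCommGroup E']
  [Module (ZMod 2) E'] [AddCommGroup Z] [Module (ZMod 2) Z]

/-- `f` is obtained from the `d`-th power of `v` by a contraction with a stabilizer function -/
def Rep (d : ℕ) (f : E → ℂ) : Prop :=
  ∃ K : E × (Fin d → ZMod 2) → ℂ, IsStab K ∧ ∀ x, f x = ∑ y, K (x, y) * vpow d y

lemma rep_of_stab [Finite E] {f : E → ℂ} (hf : IsStab f) : Rep 0 f := by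
  refine ⟨fun p => f p.1, stab_comp (LinearMap.fst (ZMod 2) E (Fin 0 → ZMod 2)) hf, fun x => ?_⟩
  simp [vpow]

lemma rep_comp [Finite E] [Finite E'] (L : E' →ₗ[ZMod 2] E) {d : ℕ} {f : E → ℂ} (hf : Rep d f) :
    Rep d (fun x => f (L x)) := by
  obtain ⟨K, hK, h⟩ := hf
  exact ⟨fun p => K (L p.1, p.2),
    stab_comp (LinearMap.prodMap L (LinearMap.id (R := ZMod 2) (M := Fin d → ZMod 2))) hK,
    fun x => h (L x)⟩

lemma rep_translate [Finite E] (b : E) {d : ℕ} {f : E → ℂ} (hf : Rep d f) :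
    Rep d (fun x => f (x + b)) := by
  obtain ⟨K, hK, h⟩ := hf
  refine ⟨fun p => K (p + (b, 0)), stab_translate (b, 0) hK, fun x => ?_⟩
  simp only [h, Prod.mk_add_mk, add_zero]

lemma rep_smul [Finite E] (c : ℂ) {d : ℕ} {f : E → ℂ} (hf : Rep d f) :
    Rep d (fun x => c * f x) := by
  obtain ⟨K, hK, h⟩ := hf
  refine ⟨fun p => c * K p, stab_smul c hK, fun x => ?_⟩
  simp only [h, Finset.mul_sum]
  exact Finset.sum_congr rfl fun y _ => by ring

lemma rep_sum [Finite E] [Fintype Z] {d : ℕ} {f : E × Z → ℂ} (hf : Rep d f) :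
    Rep d (fun x => ∑ z, f (x, z)) := by
  obtain ⟨K, hK, h⟩ := hf
  let L : (E × (Fin d → ZMod 2)) × Z →ₗ[ZMod 2] (E × Z) × (Fin d → ZMod 2) :=
    LinearMap.prod (LinearMap.prod (LinearMap.fst _ _ _ ∘ₗ LinearMap.fst _ _ _)
      (LinearMap.snd _ _ _)) (LinearMap.snd _ _ _ ∘ₗ LinearMap.fst _ _ _)
  refine ⟨fun p => ∑ z, K ((p.1, z), p.2), stab_sum (f := fun p => K (L p)) (stab_comp L hK),
    fun x => ?_⟩
  simp only [h, Finset.sum_mul]
  exact Finset.sum_comm

lemma rep_mul [Finite E] {d d' : ℕ} {f g : E → ℂ} (hf : Rep d f) (hg : Rep d' g) :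
    Rep (d + d') (fun x => f x * g x) := by
  obtain ⟨K, hK, h⟩ := hf
  obtain ⟨K', hK', h'⟩ := hg
  let L : E × (Fin (d + d') → ZMod 2) →ₗ[ZMod 2] E × (Fin d → ZMod 2) :=
    LinearMap.prodMap LinearMap.id (LinearMap.funLeft (ZMod 2) (ZMod 2) (Fin.castAdd d'))
  let L' : E × (Fin (d + d') → ZMod 2) →ₗ[ZMod 2] E × (Fin d' → ZMod 2) :=
    LinearMap.prodMap LinearMap.id (LinearMap.funLeft (ZMod 2) (ZMod 2) (Fin.natAdd d))
  refine ⟨fun p => K (L p) * K' (L' p), stab_mul (stab_comp L hK) (stab_comp L' hK'),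
    fun x => ?_⟩
  simp only [h, h']
  rw [Finset.sum_mul_sum, ← (Fin.appendEquiv d d').sum_comp, Fintype.sum_prod_type,
    ← Fintype.sum_prod_type' (f := fun y z => K (x, y) * vpow d y * (K' (x, z) * vpow d' z)),
    ← Fintype.sum_prod_type' (f := fun y z => K (L (x, (Fin.appendEquiv d d') (y, z))) *
      K' (L' (x, (Fin.appendEquiv d d') (y, z))) * vpow (d + d') ((Fin.appendEquiv d d') (y, z)))]
  refine Finset.sum_congr rfl fun y _ => ?_
  have e1 : L (x, Fin.append y.1 y.2) = (x, y.1) := by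
    refine Prod.ext rfl ?_
    funext j
    simp [L, LinearMap.funLeft_apply]
  have e2 : L' (x, Fin.append y.1 y.2) = (x, y.2) := by
    refine Prod.ext rfl ?_
    funext j
    simp [L', LinearMap.funLeft_apply]
  have e3 : vpow (d + d') (Fin.append y.1 y.2) = vpow d y.1 * vpow d' y.2 := by
    unfold vpow
    rw [Fin.prod_univ_add]
    simp
  have e4 : (Fin.appendEquiv d d') y = Fin.append y.1 y.2 := rfl
  rw [e4, e1, e2, e3]
  ring

end

end Pool.Agent.U8.Stab
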